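import Mathlib
import Pool.Agent.Helper227.Defs
import Pool.Agent.Helper227.Mach
import Pool.Agent.U35.OW.Main

set_option autoImplicit false

/-!
Problem MP_e7a618_lc, question Q1, answered positively: every K-trivial set is low for
Oberwolfach randomness. (The other direction of the equivalence is known.)

The notions `chi`, `CEIn`, `cyl`, `lam` are those of `Pool/Agent/Helper227/Defs.lean`, and
`IsUniversal`, `KU`, `KTrivial` those of `Pool/Agent/Helper227/Mach.lean`.

Outline of the proof. By a golden run argument, for every computable assignment of weights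
to strings whose sum along each string is at most one, a K-trivial set has a computable
approximation in which each string is comparable with the next one and the total weight given up
is finite. This is applied to weights which follow the increments of the relative left-c.e. real;
the variation of the approximation, together with a sum for the changes of the complexity of
certain pairs, gives a new left-c.e. real. The relative open sets are replaced by sets of
strings of bounded complexity, using that a K-trivial set does not help to compress.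
-/

namespace Pool.Agent.Results.MP_e7a618_lc.KTrivialLowOW

open MeasureTheory Encodable
open scoped ENNReal NNReal
open Pool.Agent.Helper227

/-- the rational number `(a - b) / (c + 1)` coded by the triple `(a, b, c)` -/
def rat (x : ℕ × ℕ × ℕ) : ℚ := ((x.1 : ℚ) - x.2.1) / (x.2.2 + 1)

/-- `G` is a left-c.e. test relative to `A`: the `G n` are open sets, uniformly c.e. relative to
`A`, and descending; there are an `A`-computable increasing sequence of rationals
`rat (f 0) < rat (f 1) < ...` with a finite supremum `β` and a constant `C` such that the measure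
of `G m` is at most `C * (β - rat (f m))`. -/
def IsOWTest (A : ℕ → Bool) (G : ℕ → Set (ℕ → Bool)) : Prop :=
  (∃ W : Set ℕ, CEIn A W ∧
    ∀ n, G n = ⋃ σ ∈ {σ : List Bool | Nat.pair n (encode σ) ∈ W}, cyl σ) ∧
  (∀ n, G (n + 1) ⊆ G n) ∧
  ∃ f : ℕ → ℕ × ℕ × ℕ, TuringReducible (fun n => Part.some (encode (f n))) (chi A) ∧
    StrictMono (fun n => rat (f n)) ∧
    ∃ β : ℝ, IsLUB (Set.range fun n => ((rat (f n) : ℚ) : ℝ)) β ∧
      ∃ C : ℝ≥0, ∀ m, lam (G m) ≤ C * ENNReal.ofReal (β - ((rat (f m) : ℚ) : ℝ))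

/-- `Z` is Oberwolfach random relative to `A` -/
def OWRandom (A Z : ℕ → Bool) : Prop :=
  ∀ G : ℕ → Set (ℕ → Bool), IsOWTest A G → Z ∉ ⋂ n, G n

/-- `A` is low for Oberwolfach randomness: every Oberwolfach random set is Oberwolfach random
relative to `A` -/
def LowForOW (A : ℕ → Bool) : Prop :=
  ∀ Z : ℕ → Bool, OWRandom (fun _ => false) Z → OWRandom A Z

theorem rat_bv (x : ℕ × ℕ × ℕ) : ((rat x : ℚ) : ℝ) = Pool.Agent.U35.OW.bv x := by
  unfold rat Pool.Agent.U35.OW.bv
  push_cast
  rfl

/-- effectively open sequences come from relations -/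
theorem exists_E {A : ℕ → Bool} {G : ℕ → Set (ℕ → Bool)} (h : ∃ W : Set ℕ, CEIn A W ∧
    ∀ n, G n = ⋃ σ ∈ {σ : List Bool | Nat.pair n (encode σ) ∈ W}, cyl σ) :
    ∃ E : List Bool × ℕ × List Bool → Prop, S1 E ∧ ∀ n, G n = UE E A n := by
  obtain ⟨W, hW, hU⟩ := h
  obtain ⟨E0, hE0, -, eE0⟩ := ceIn_iff.1 hW
  refine ⟨fun x => E0 (x.1, Nat.pair x.2.1 (encode x.2.2)),
    hE0.comp (Primrec.fst.pair (Primrec₂.natPair.comp (Primrec.fst.comp Primrec.snd)
      (Primrec.encode.comp (Primrec.snd.comp Primrec.snd)))), fun n => ?_⟩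
  rw [hU]
  ext X
  simp only [UE, Set.mem_ofPred_eq, Set.mem_iUnion, exists_prop, eE0]
  constructor
  · rintro ⟨σ, ⟨s, hs⟩, hX⟩
    rw [mem_cyl_iff] at hX
    exact ⟨s, σ.length, by rw [hX]; exact hs⟩
  · rintro ⟨s, t, h⟩
    exact ⟨pre X t, ⟨s, h⟩, mem_cyl_pre _ _⟩

/-- relations give effectively open sequences -/
theorem ce_of_E {A : ℕ → Bool} {E : List Bool × ℕ × List Bool → Prop} (hE : S1 E) :
    ∃ W : Set ℕ, CEIn A W ∧
      ∀ n, UE E A n = ⋃ σ ∈ {σ : List Bool | Nat.pair n (encode σ) ∈ W}, cyl σ := by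
  refine ⟨{m | ∃ s, ∃ ζ : List Bool, E (pre A s, (Nat.unpair m).1, ζ) ∧
    encode ζ = (Nat.unpair m).2}, ?_, ?_⟩
  · rw [ceIn_iff]
    refine ⟨fun x => ∃ s : ℕ, ∃ ζ : List Bool, (s ≤ x.1.length ∧
      encode ζ = (Nat.unpair x.2).2) ∧ E (x.1.take s, (Nat.unpair x.2).1, ζ), ?_, ?_, ?_⟩
    · refine S1.ex (S1.ex (S1.and (S1.of_prim (PrimrecPred.and ?_ ?_)) (hE.comp ?_)))
      · exact Primrec.nat_le.comp (Primrec.snd.comp Primrec.fst)
          (Primrec.list_length.comp (Primrec.fst.comp (Primrec.fst.comp Primrec.fst)))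
      · exact Primrec.eq.comp (Primrec.encode.comp Primrec.snd)
          (Primrec.snd.comp (Primrec.unpair.comp (Primrec.snd.comp (Primrec.fst.comp Primrec.fst))))
      · exact (Primrec.list_take.comp (Primrec.snd.comp Primrec.fst)
          (Primrec.fst.comp (Primrec.fst.comp Primrec.fst))).pair
          ((Primrec.fst.comp (Primrec.unpair.comp
            (Primrec.snd.comp (Primrec.fst.comp Primrec.fst)))).pair Primrec.snd)
    · rintro σ τ n h ⟨s, ζ, ⟨hs, h1⟩, h2⟩
      refine ⟨s, ζ, ⟨le_trans hs h.length_le, h1⟩, ?_⟩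
      simp only at hs h2 ⊢
      rw [List.prefix_iff_eq_take] at h
      rw [h, List.take_take, min_eq_left hs] at h2
      exact h2
    · intro n
      simp only [Set.mem_ofPred_eq, length_pre]
      constructor
      · rintro ⟨s, ζ, h1, h2⟩
        exact ⟨s, s, ζ, ⟨le_rfl, h2⟩, by rwa [take_pre _ _ _ le_rfl]⟩
      · rintro ⟨s', s, ζ, ⟨hs, h2⟩, h1⟩
        rw [take_pre _ _ _ hs] at h1
        exact ⟨s, ζ, h1, h2⟩
  · intro n
    ext X
    simp only [UE, Set.mem_ofPred_eq, Set.mem_iUnion, Nat.unpair_pair, exists_prop]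
    constructor
    · rintro ⟨s, t, h⟩
      exact ⟨pre X t, ⟨s, pre X t, h, rfl⟩, mem_cyl_pre _ _⟩
    · rintro ⟨σ, ⟨s, ζ, h, h2⟩, hX⟩
      have := encode_injective h2
      subst this
      rw [mem_cyl_iff] at hX
      exact ⟨s, ζ.length, by rw [hX]; exact h⟩

/-- Every K-trivial set is low for Oberwolfach randomness. -/
theorem result (U : List Bool →. List Bool) (hU : IsUniversal U) (A : ℕ → Bool)
    (hA : KTrivial U A) : LowForOW A := by
  classical
  intro Z hZ G hG hmem
  obtain ⟨hG1, hG2, f, hf, hfm, β, hβ, C, hC⟩ := hG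
  obtain ⟨E, hE, hEG⟩ := exists_E hG1
  obtain ⟨R, hR, -, eR⟩ := recIn_graph (RecursiveIn.iff_nat.1 hf)
  obtain ⟨qf, hq, hqm, hqe⟩ := hR
  have hcomp : Pool.Agent.U35.OW.Comp qf A f := by
    refine ⟨hq, hqm, fun s n m t h => ?_, fun n => ?_⟩
    · have h1 := (eR n m).2 ⟨s, (hqe _).2 ⟨t, h⟩⟩
      exact Part.mem_some_iff.1 h1
    · obtain ⟨s, hs⟩ := (eR n (encode (f n))).1 (Part.mem_some _)
      obtain ⟨t, ht⟩ := (hqe _).1 hs
      exact ⟨s, t, ht⟩
  have hmono : Monotone fun m => Pool.Agent.U35.OW.bv (f m) := by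
    intro m n hmn
    simp only
    rw [← rat_bv, ← rat_bv]
    exact_mod_cast hfm.monotone hmn
  obtain ⟨E', f', g, C', h1, h2, h3, h4, h5, h6, h7⟩ := Pool.Agent.U35.OW.main hU hA hE
    (fun m => by rw [← hEG, ← hEG]; exact hG2 m) hcomp hmono (b := β)
    (fun m => by rw [← rat_bv]; exact hβ.1 ⟨m, rfl⟩)
    (fun δ hδ => by
      by_contra hcon
      push Not at hcon
      have h8 : β - δ ∈ upperBounds (Set.range fun n => ((rat (f n) : ℚ) : ℝ)) := by
        rintro _ ⟨m, rfl⟩
        simp only
        rw [rat_bv]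
        exact hcon m
      have := hβ.2 h8
      linarith)
    (C := C) (fun m => by rw [← hEG, ← rat_bv]; exact hC m) (Z := Z)
    (fun m => by rw [← hEG]; exact Set.mem_iInter.1 hmem m)
  refine hZ (UE E' fun _ => false) ⟨ce_of_E h1, h5, f', ?_, ?_, g, ?_, C', fun m => ?_⟩
    (Set.mem_iInter.2 h7)
  · have h8 : Computable fun n => encode (f' n) := (Primrec.encode.comp h2).to_comp
    exact Partrec.turingReducible h8.partrec
  · intro m n hmn
    have h8 := h3 hmn
    simp only at h8
    rw [← rat_bv, ← rat_bv] at h8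
    exact_mod_cast h8
  · have h8 : (fun n => ((rat (f' n) : ℚ) : ℝ)) = fun m => Pool.Agent.U35.OW.bv (f' m) :=
      funext fun n => rat_bv _
    rw [h8]
    exact h4
  · rw [rat_bv]
    exact h6 m

end Pool.Agent.Results.MP_e7a618_lc.KTrivialLowOW
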